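import Pool.Agent.U286.DP.Main
import Pool.Agent.H413R3.Part.Pt

set_option autoImplicit false

/-!
# Parity of the `t`-multipartition numbers against polynomials in the binary digits (MP_a3366f_nt)

Let `t` be odd, `p_t(n)` the number of `t`-multipartitions of `n`, and
`W(n) = ∑_{a ≤ A} ∑_{i ≤ L} c_{a,i} p_t(4 ^ a n + i)` modulo 2 with `c ≠ 0`; for instance
`W(n) = p_t(n)` modulo 2.

(1) *Low rank.* Fix `t, A, L, b, k, K`. For all `x ≥ X`, all `c ≠ 0`, all residue classes `ρ` modulo
`2 ^ b` and all `u : ℕ → F_2` which on this class are a sum of `2 ^ k - 1` products of a function of the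
`b + k` lowest binary digits of `n` and a function of the other digits, we have `W(n) ≠ u(n)` for at
least `√x (log log x) ^ K / log x` of the `n ≤ x` in the class. On the class there are only `2 ^ k`
values of the `b + k` lowest digits, so that every function is a sum of `2 ^ k` such products: the
`2 ^ k - 1` is best possible.

(2) *Polynomials.* Fix `t, A, L, b, D, R, Q, K`. For all `x ≥ X`, all `c ≠ 0`, every polynomial `u(n)` of
degree at most `D` in the binary digits of `n` over `F_2` (with any number of monomials), the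
coefficients of which may be Boolean functions of the outputs of `R` computations which read the binary
digits of `n` in one pass, from the lowest or from the highest, with `Q` memory states, for all `ρ` and
both `κ`, the equation `W(n) + u(n) = κ` has at least `√x (log log x) ^ K / log x` solutions `n ≤ x`,
`n ≡ ρ` modulo `2 ^ b`. All of `u` may depend on `x`.

If the density in the question is `1 / 2`, then no simple rule should predict the parity of `p_t(n)`
better than chance. The starting file `PredictorErrors` considers the rules with `D = 0` (and `A = 0`);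
there, the number of states at a cut through the digits is bounded, and the pigeonhole principle gives
two residues `r, r'` modulo `2 ^ k` with the same state. Polynomials of degree 2 such as
`∑ d_j(n) d_{2 j + 1}(n)` (`d_j(n)` the digits) cannot be computed with bounded memory. Here only the
rank over `F_2` of the matrix `(u(2 ^ k n + r))_{r, n}` is used: it is at most `(k + 1) ^ D` times a
constant for polynomials of degree `D`, hence smaller than `2 ^ k - 1` for large `k`, and there is a
nonempty set `Y` of residues with `∑_{r ∈ Y} u(2 ^ k n + r) = 0` for all `n ≥ 1`. The sum of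
`W(2 ^ k n + r)` over `r ∈ Y` is a nonzero joint pattern at `2 ^ k n` again, because it belongs to the
product of the polynomials `∑_{r ∈ Y} X ^ {4 ^ a r}` and `∑ c_{a,i} X ^ i`; so it is `1` often (library
`Pool.Agent.N493.PE`, which extends `PatternCounts`).
-/

namespace Pool.Agent.Results.MP_a3366f_nt.DigitPolynomials

open PowerSeries Pool.Agent.U286.DP

/-- the number of `t`-multipartitions of `n`: the coefficient of `q ^ n` in `∏ 1 / (1 - q ^ i) ^ t` -/
def multipartitions (t n : ℕ) : ℕ :=
  ∑ x ∈ Finset.Nat.antidiagonalTuple t n, ∏ i, Fintype.card (Nat.Partition (x i))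

theorem result (t : ℕ) (ht : Odd t) (A L b K : ℕ) :
    (∀ k : ℕ, ∃ X : ℕ, ∀ x : ℕ, X ≤ x → ∀ c : Fin (A + 1) → Fin (L + 1) → ZMod 2, c ≠ 0 →
      ∀ (ρ : ℕ) (u : ℕ → ZMod 2), RankLE b k (2 ^ k - 1) ρ u →
        √x * Real.log (Real.log x) ^ K / Real.log x ≤
          (((Finset.range (x + 1)).filter fun n => n % 2 ^ b = ρ % 2 ^ b ∧
            ∑ a : Fin (A + 1), ∑ i : Fin (L + 1),
              c a i * (multipartitions t (4 ^ (a : ℕ) * n + i) : ZMod 2) ≠ u n).card : ℝ)) ∧
    (∀ D R Q : ℕ, ∃ X : ℕ, ∀ x : ℕ, X ≤ x → ∀ c : Fin (A + 1) → Fin (L + 1) → ZMod 2, c ≠ 0 →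
      ∀ u : ℕ → ZMod 2, DigitPoly D R Q u → ∀ (ρ : ℕ) (κ : ZMod 2),
        √x * Real.log (Real.log x) ^ K / Real.log x ≤
          (((Finset.range (x + 1)).filter fun n => n % 2 ^ b = ρ % 2 ^ b ∧
            ∑ a : Fin (A + 1), ∑ i : Fin (L + 1),
              c a i * (multipartitions t (4 ^ (a : ℕ) * n + i) : ZMod 2) + u n = κ).card : ℝ)) ∧
    (∀ (k ρ : ℕ) (u : ℕ → ZMod 2), RankLE b k (2 ^ k) ρ u) := by
  have key : ∀ (c : Fin (A + 1) → Fin (L + 1) → ZMod 2) (n : ℕ),
      Pool.Agent.N493.PE.wF c (fun n => coeff n (Pool.Agent.N493.PD.Ft t)) n =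
        ∑ a : Fin (A + 1), ∑ i : Fin (L + 1),
          c a i * (multipartitions t (4 ^ (a : ℕ) * n + i) : ZMod 2) := by
    intro c n
    unfold Pool.Agent.N493.PE.wF
    simp only [Pool.Agent.H413R3.Part.coeff_pow_eq]
    rfl
  have hne : ∀ w u : ZMod 2, w + u = 1 ↔ w ≠ u := by decide
  refine ⟨?_, ?_, fun k ρ u => rankLE_all b k ρ u⟩
  · intro k
    obtain ⟨X, hX⟩ := main_rankLE t b A L K k (2 ^ k - 1) (Nat.odd_iff.1 ht)
      (Nat.sub_lt (by positivity) one_pos)
    refine ⟨X, fun x hx c hc ρ u hu => ?_⟩
    have h := hX x hx c hc ρ u hu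
    simp only [key, hne] at h
    exact h
  · intro D R Q
    obtain ⟨X, hX⟩ := main_poly t b A L K D R Q (Nat.odd_iff.1 ht)
    refine ⟨X, fun x hx c hc u hu ρ κ => ?_⟩
    have h := hX x hx c hc u hu ρ κ
    simp only [key] at h
    exact h

end Pool.Agent.Results.MP_a3366f_nt.DigitPolynomials
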