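import Mathlib
import Pool.Agent.U496.UP.Inst

/-!
# The parity of multipartition numbers against linear machines and automata of growing size (MP_a3366f_nt)

The predictors are linear machines over `F_2` of dimension `S` (for instance linear recurrences of order `S`, with
corrections at some places, or automata with `S` states over an arbitrary alphabet), where `S` may grow with `N`.

For `t = 4 ^ b - 1` and for `t = 3 (4 ^ b - 1)`, `b ≥ 1` (`t = 3, 9, 15, 45, 63, …`), and for `S ≤ √N / 4`: (1) all
nonzero linear patterns `∑_(i ≤ S) c_i p_t(n + i)` take both values at least `N ^ (1/2 - ε)` times on `[0, N]`, uniformly in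
`S` and `c`; (2), (3) the number `E` of the failures of a linear machine of dimension at most `S`, or of an automaton with
at most `S` states, satisfies `(S + 1) E ≥ N ^ (1/2 - ε)`.

Proof. Let `F` be the generating function of the parities of `p_t` and `f = ∏ (1 - X ^ n)` modulo 2. Then
`F f ^ (4 ^ b) = f` for `t = 4 ^ b - 1`, and `F (f ^ 3) ^ (4 ^ b) = f ^ 3` for `t = 3 (4 ^ b - 1)`. The exponents of `f` are
the generalized pentagonal numbers, those of `f ^ 3` the triangular numbers. Let `R` be the reversed polynomial of the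
pattern, `R(0) = 1`. The coefficient of `R Y` (`Y = f` or `f ^ 3`) at an isolated exponent `m` of `Y` is `1`, so the pattern
has the value `1` at the place `m - 4 ^ b g - S` for some exponent `g`; this place is not negative for large `m`, since
`24 m + 1` (`8 m + 1`) is an odd square and `24 * 4 ^ b g + 4 ^ b` (`8 * 4 ^ b g + 4 ^ b`) an even one. The difference of
these squares determines `m` up to the choice of a divisor. (2) By Cayley and Hamilton the pattern of the coefficients of
the characteristic polynomial of a machine of dimension `d` vanishes at `n` if there is no failure in `[n, n + d]`. (3) An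
automaton with `S` states is a linear machine of dimension `S`.
-/

set_option autoImplicit false

namespace Pool.Agent.Results.MP_a3366f_nt.LinearMachines

open Finset
open Pool.Agent.U496.UP (failures state cost)

/-- the number of `t`-multipartitions of `n`: the coefficient of `q ^ n` in `∏ 1 / (1 - q ^ i) ^ t` -/
def multipartitions (t n : ℕ) : ℕ :=
  ∑ x ∈ Finset.Nat.antidiagonalTuple t n, ∏ i, Fintype.card (Nat.Partition (x i))

/-- the parity of `p_t(n)` -/
def parity (t n : ℕ) : ZMod 2 := (multipartitions t n : ZMod 2)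

/-- **Linear machines and automata of growing size.** `failures (parity t) T o x N` is the number of the `n ≤ N` with
`x (n + 1) ≠ T (x n)` or `o (x n) ≠ p_t(n)` modulo 2; `cost (parity t) next guess q₀ a φ N` is the number of the `n ≤ N` at
which the automaton (`next`, `guess`, initial state `q₀`, reading `a 0, a 1, …`) does not predict `a n`, plus the number
of the `n ≤ N` with `φ (a n) ≠ p_t(n)` modulo 2.
For `t = 4 ^ b - 1` or `3 (4 ^ b - 1)`, `b ≥ 1`, and `ε > 0` there is `N₀` such that for all `N ≥ N₀` and all
`S ≤ √N / 4`: (1) every nonzero pattern `∑_(i ≤ S) c_i p_t(n + i)` takes both values at least `N ^ (1/2 - ε)` times for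
`n ≤ N`; (2) `(S + 1) E ≥ N ^ (1/2 - ε)` for the number `E` of the failures of every linear machine of dimension at most `S`;
(3) the same for the cost `E` of every automaton with at most `S` states. -/
theorem result (b t : ℕ) (hb : 1 ≤ b) (ht : t = 4 ^ b - 1 ∨ t = 3 * (4 ^ b - 1)) (ε : ℝ) (hε : 0 < ε) :
    ∃ N₀ : ℕ, ∀ N : ℕ, N₀ ≤ N → ∀ S : ℕ, 16 * S ^ 2 ≤ N →
      (∀ c : Fin (S + 1) → ZMod 2, c ≠ 0 → ∀ κ : ZMod 2, (N : ℝ) ^ (1 / 2 - ε) ≤
        ((range (N + 1)).filter fun n => ∑ i : Fin (S + 1), c i * parity t (n + i) = κ).card) ∧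
      (∀ (V : Type) [AddCommGroup V] [Module (ZMod 2) V] [FiniteDimensional (ZMod 2) V],
        Module.finrank (ZMod 2) V ≤ S → ∀ (T : V →ₗ[ZMod 2] V) (o : V →ₗ[ZMod 2] ZMod 2) (x : ℕ → V),
          (N : ℝ) ^ (1 / 2 - ε) ≤ (S + 1) * (failures (parity t) T o x N : ℝ)) ∧
      (∀ (Q A : Type) [Fintype Q], Fintype.card Q ≤ S → ∀ (next : Q → A → Q) (guess : Q → A) (q₀ : Q) (a : ℕ → A)
        (φ : A → ZMod 2), (N : ℝ) ^ (1 / 2 - ε) ≤ (S + 1) * (cost (parity t) next guess q₀ a φ N : ℝ)) := by
  have hpar : ∀ t, parity t = Pool.Agent.U496.UP.mpar t := fun t => rfl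
  have hmany : Pool.Agent.U496.UP.Many (Pool.Agent.U496.UP.mpar t) := by
    rcases ht with rfl | rfl
    · exact (Pool.Agent.U496.UP.many_mpar b hb).1
    · exact (Pool.Agent.U496.UP.many_mpar b hb).2
  obtain ⟨N₁, h1⟩ := Pool.Agent.U496.UP.both_many hmany ε hε
  obtain ⟨N₂, h2⟩ := Pool.Agent.U496.UP.failures_lower hmany ε hε
  obtain ⟨N₃, h3⟩ := Pool.Agent.U496.UP.cost_lower hmany ε hε
  refine ⟨N₁ + N₂ + N₃, fun N hN S hS => ⟨?_, ?_, ?_⟩⟩
  · intro c hc κ
    set c' : ℕ → ZMod 2 := fun i => if h : i < S + 1 then c ⟨i, h⟩ else 0 with hc'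
    have e1 : ∀ i : Fin (S + 1), c' i = c i := fun i => dif_pos i.2
    have hne : ∃ i, i ≤ S ∧ c' i ≠ 0 := by
      by_contra hcon
      push Not at hcon
      apply hc
      funext i
      have := hcon i (by have := i.2; omega)
      rw [e1] at this
      exact this
    refine (h1 N (by omega) S hS c' hne κ).trans (le_of_eq ?_)
    congr 2
    apply filter_congr
    intro n _
    rw [Pool.Agent.U496.UP.pat, Finset.sum_range]
    have e : ∑ i : Fin (S + 1), c' i * Pool.Agent.U496.UP.mpar t (n + i) =
        ∑ i : Fin (S + 1), c i * parity t (n + i) := by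
      refine Finset.sum_congr rfl fun i _ => ?_
      rw [e1]
      rfl
    rw [e]
  · intro V _ _ _ hV T o x
    rw [hpar]
    exact h2 N (by omega) S hS V hV T o x
  · intro Q A _ hQ next guess q₀ a φ
    rw [hpar]
    exact h3 N (by omega) S hS Q A hQ next guess q₀ a φ

end Pool.Agent.Results.MP_a3366f_nt.LinearMachines
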