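import Pool.Agent.U448.OddQ.FinT

set_option autoImplicit false

/-!
# Odd values of the number of `t`-multipartitions, `t ≡ 1 (mod 6)`, on square classes modulo primes
(MP_a3366f_nt)

Let `t ≡ 1` or `7 (mod 24)`, or `t ≡ 13 (mod 24)` and some integer `(4 ^ r - t) / 3`, `t < 4 ^ r`, has a
binary digit 1 at an odd position, or `t ≡ 19 (mod 24)` and some integer `(4 ^ r - t) / 3`, `t < 4 ^ r`,
has a binary digit 1 at an odd position `≥ 3`. For every `K`, every `ε > 0`, all large `x`, every set `L`
of at most `K` primes `≡ 5 (mod 8)` with product at most `x ^ (1 / 33)`, all `b` with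
`2 ^ b ≤ (log x) ^ (2 - ε)` and every residue `ρ`: at least `√x (log x) ^ (1 - ε) / 2 ^ b` of the
integers `n ≤ x` with `n ≡ ρ (mod 2 ^ b)`, for which `t - 24 n` is a square modulo every prime of `L`, have
an odd number of `t`-multipartitions.

The starting file `OddValues` is the case `t ≡ 1 (mod 12)`, `L = ∅`. (The digits of `(4 ^ r - t) / 3` at the
odd positions do not depend on `r`; few `t` are excluded by the conditions on the digits.)

The frame is that of `H307R2/OP` and `H413R3/OddL`: let `m = (4 ^ r - t) / 3`; if `N` is a product of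
primes at which the coefficient of `D ^ m` modulo 2 is odd, then `24 n + 4 ^ r u ^ 2 = 3 N + t` for some `u`
and some `n` with `p_t n` odd, and the multiplicity of `n` is controlled by the representations
`3 N = δ s ^ 2 + 4 ^ r u ^ 2`, `δ` the squarefree kernel of `24 n - t`. New:

* `t ≡ 7 (mod 12)` (files `OddM`). Here `δ ≡ 5 (mod 12)`, and the symbols `(-δ | q)` which decide the
  local solubility are not the `(q | δ)` of the case `t ≡ 1`, `δ ≡ 11 (mod 12)`, for `q ≡ 3 (mod 4)`; the
  estimates for the biases and the existence of a small prime `q ≡ 3, 5 (mod 8)` with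
  `(-δ | q) = -1` are redone. `m = 2 sp a + 4 sp m' + 1` with `a` odd, and for `a = 1` (for instance
  `t = 7`) one prime factor `≡ 3 (mod 8)` of `N` is not enough, because up to two such primes may be
  needed to kill the strongly biased kernels. It is proved (file `OddM/Alg3`) that for even `m'` the
  operator `T_3 ^ 3 T_5 ^ (m' - 2)` maps `D ^ (4 sp m' + 3)` to `D`, modulo 2, so that three primes
  `≡ 3 (mod 8)` are also allowed.
* The square classes (files `OddQ`). `N` runs over the multiples of the primes of `L`, so that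
  `t - 24 n ≡ (2 ^ r u) ^ 2` modulo these primes. The number of the `N` and the bound for the
  multiplicity of an `n` are both smaller by the factor `∏ L`, so nothing is lost, and the primes of `L`
  may be as large as a power of `x`.
-/

namespace Pool.Agent.Results.MP_a3366f_nt.OddValuesSquareClasses

theorem result (t : ℕ) (ht : t % 24 = 1 ∨ t % 24 = 7 ∨
      (t % 24 = 13 ∧ ∃ r i : ℕ, t < 4 ^ r ∧
        Nat.testBit ((4 ^ r - t) / 3) (2 * i + 1) = true) ∨
      (t % 24 = 19 ∧ ∃ r i : ℕ, 1 ≤ i ∧ t < 4 ^ r ∧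
        Nat.testBit ((4 ^ r - t) / 3) (2 * i + 1) = true))
    (K : ℕ) (ε : ℝ) (hε : 0 < ε) : ∃ x0 : ℝ, ∀ x : ℕ, x0 ≤ x → ∀ L : Finset ℕ,
    L.card ≤ K → (∀ l ∈ L, l.Prime ∧ l % 8 = 5) → (∏ l ∈ L, l) ^ 33 ≤ x → ∀ b ρ : ℕ,
    (2 : ℝ) ^ b ≤ Real.log x ^ (2 - ε) →
    Real.sqrt x * Real.log x ^ (1 - ε) / 2 ^ b ≤
      ({n : ℕ | n ≤ x ∧ n % 2 ^ b = ρ % 2 ^ b ∧
        (∀ l ∈ L, IsSquare ((t : ZMod l) - 24 * (n : ZMod l))) ∧
        Odd (∑ y ∈ Finset.Nat.antidiagonalTuple t n,
          ∏ i, Fintype.card (Nat.Partition (y i)))}.ncard : ℝ) :=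
  Pool.Agent.U448.OddQ.mainT t ht K ε hε

end Pool.Agent.Results.MP_a3366f_nt.OddValuesSquareClasses
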