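import Pool.Agent.U204.PE.Wt

/-!
# Eta quotients and multipartitions after thin random changes of the exponents

Let `a n` (`n ≥ 1`) be ANY integers, for instance `a n = t` (then the coefficients of the product of the
`(1 - X ^ n) ^ (- a n)` are the numbers `p_t(n)` of `t`-multipartitions) or the exponents of any eta quotient.
Every `a n` is changed to `a n + s n`, `s n = 1` or `s n = -1` given, independently with a probability between
`c (n + 1) ^ (-δ)` and `1 / 2`, where `δ < 1 / 2`.  Almost surely the coefficients of the new product are normal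
modulo EVERY `M`: every block of `k` residues appears with the exact frequency `M ^ (-k)`; in particular the odd
density exists and is `1 / 2`.  Moreover the occurrences of the blocks do not correlate with any bounded sequence
given in advance, nor with those of a countable family: so the frequencies are the same on all arithmetic
progressions and on every set of positive lower density given in advance.

Proof as for `MP_ebc808_nt.RandomChangesOfParts` (project PN, helper204 with helpers 27, 843, 461, 364, 139, 981,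
187, 705, 894), for abstract systems: a change of the exponent of `1 - X ^ m` changes the coefficients at `x`,
`m ≤ x < 2 m`, by plus or minus the coefficient at `x - m`.
-/

set_option autoImplicit false

namespace Pool.Agent.Results.MP_a3366f_nt.RandomExponents

open MeasureTheory Filter Topology Finset

/-- The unit `1 - X ^ n` of the ring of power series with integer coefficients (`n ≥ 1`). -/
noncomputable def oneSub (n : ℕ) : (PowerSeries ℤ)ˣ :=
  if h : 1 ≤ n then Units.mkOfMulEqOne (1 - (PowerSeries.X : PowerSeries ℤ) ^ n)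
    (PowerSeries.invOfUnit (1 - (PowerSeries.X : PowerSeries ℤ) ^ n) 1)
    (PowerSeries.mul_invOfUnit _ _ (by simp [show n ≠ 0 by omega])) else 1

/-- The coefficient of `X ^ x` in the product of the `(1 - X ^ n) ^ (- a n)` over all `n ≥ 1` (the factors with
`n > x` do not matter and are left out). -/
noncomputable def coefficient (a : ℕ → ℤ) (x : ℕ) : ℤ :=
  PowerSeries.coeff x ((∏ n ∈ Icc 1 x, oneSub n ^ (- a n) : (PowerSeries ℤ)ˣ) : PowerSeries ℤ)

/-- The changed exponents: `a n + s n` if `ω n = true`, otherwise `a n`. -/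
def changed (a : ℕ → ℤ) (s : ℕ → ℤˣ) (ω : ℕ → Bool) (n : ℕ) : ℤ :=
  a n + if ω n = true then (s n : ℤ) else 0

open Classical in
/-- `u` is normal modulo `M`: every block of `k` residues, for every `k`, appears with frequency `M ^ (-k)`. -/
def NormalMod (M : ℕ) (u : ℕ → ℤ) : Prop := ∀ (k : ℕ) (b : Fin k → ZMod M),
  Tendsto (fun N : ℕ => (((range N).filter fun n => ∀ j : Fin k, (u (n + j) : ZMod M) = b j).card : ℝ) / N)
    atTop (𝓝 (((M : ℝ) ^ k)⁻¹))

open Classical in
/-- The occurrences of the blocks of residues modulo `M` in `u` do not correlate with `w`: for every block `b` of `k`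
residues the mean over `n < N` of `w n (1_b(n) - M ^ (-k))` tends to `0`, where `1_b(n) = 1` if `b` appears in `u` at
`n`, otherwise `0`. -/
def Uncorrelated (M : ℕ) (u : ℕ → ℤ) (w : ℕ → ℂ) : Prop := ∀ (k : ℕ) (b : Fin k → ZMod M),
  Tendsto (fun N : ℕ => (∑ n ∈ range N, w n *
    ((if ∀ j : Fin k, (u (n + j) : ZMod M) = b j then 1 else 0) - ((M : ℂ) ^ k)⁻¹)) / (N : ℂ)) atTop (𝓝 0)

theorem coefficient_eq (a : ℕ → ℤ) : coefficient a = Pool.Agent.U204.PE.P a := rfl

open Classical in
theorem result :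
    (∀ (μ : ℕ → Measure Bool) [∀ n, IsProbabilityMeasure (μ n)] (a : ℕ → ℤ) (s : ℕ → ℤˣ) (c δ : ℝ), 0 < c →
      0 < δ → δ < 1 / 2 →
      (∀ n : ℕ, c * ((n : ℝ) + 1) ^ (-δ) ≤ (μ n).real {true} ∧ (μ n).real {true} ≤ 1 / 2) →
      (∀ᵐ ω ∂(Measure.infinitePi μ), ∀ M : ℕ, 1 ≤ M → NormalMod M (coefficient (changed a s ω))) ∧
      ∀ w : ℕ → ℕ → ℂ, (∀ i n, ‖w i n‖ ≤ 1) → ∀ᵐ ω ∂(Measure.infinitePi μ), ∀ i M : ℕ, 1 ≤ M →
        Uncorrelated M (coefficient (changed a s ω)) (w i)) ∧
    (∀ (a : ℕ → ℤ) (s : ℕ → ℤˣ) (θ : ℝ), 1 / 2 < θ → ∃ (a' : ℕ → ℤ) (C : ℝ),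
      (∀ n, a' n = a n ∨ a' n = a n + s n) ∧
      (∀ N : ℕ, (((range N).filter fun n => a' n ≠ a n).card : ℝ) ≤ C * (N : ℝ) ^ θ) ∧
      ∀ M : ℕ, 1 ≤ M → NormalMod M (coefficient a')) := by
  have main : ∀ (μ : ℕ → Measure Bool) [∀ n, IsProbabilityMeasure (μ n)] (a : ℕ → ℤ) (s : ℕ → ℤˣ) (c δ : ℝ),
      0 < c → 0 < δ → δ < 1 / 2 →
      (∀ n : ℕ, c * ((n : ℝ) + 1) ^ (-δ) ≤ (μ n).real {true} ∧ (μ n).real {true} ≤ 1 / 2) →
      ∀ᵐ ω ∂(Measure.infinitePi μ), ∀ M : ℕ, 1 ≤ M → NormalMod M (coefficient (changed a s ω)) := by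
    intro μ _ a s c δ hc hδ hδ2 hμ
    filter_upwards [Pool.Agent.U204.PE.main Pool.Agent.U461.PN.t_AVG Pool.Agent.U187.PN.t_SLLN
      Pool.Agent.U705.PN.FOUR.t_FOUR (Pool.Agent.U204.PE.sys_chx a s) μ c δ hc hδ hδ2 hμ] with ω hω M hM k b
    exact hω M k hM b
  refine ⟨fun μ _ a s c δ hc hδ hδ2 hμ => ⟨main μ a s c δ hc hδ hδ2 hμ, fun w hw => ?_⟩, fun a s θ hθ => ?_⟩
  · refine ae_all_iff.2 fun i => ?_
    filter_upwards [Pool.Agent.U204.PE.mainw Pool.Agent.U461.PN.t_AVG Pool.Agent.U187.PN.t_SLLN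
      (Pool.Agent.U204.PE.sys_chx a s) μ c δ hc hδ hδ2 hμ (w i) (hw i)] with ω hω M hM k b
    exact hω M k hM b
  set δ : ℝ := max (1 - θ) (1 / 4) with hδ
  have hδ0 : 0 < δ := lt_of_lt_of_le (by norm_num) (le_max_right _ _)
  have hδ1 : δ < 1 / 2 := max_lt (by linarith) (by norm_num)
  have hδθ : 1 - δ ≤ θ := by
    have := le_max_left (1 - θ) (1 / 4)
    linarith
  have hb : ∀ n : ℕ, 0 ≤ ((n : ℝ) + 1) ^ (-δ) ∧ ((n : ℝ) + 1) ^ (-δ) ≤ 1 := fun n => by
    refine ⟨by positivity, Real.rpow_le_one_of_one_le_of_nonpos ?_ (by linarith)⟩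
    have : (0 : ℝ) ≤ n := n.cast_nonneg
    linarith
  choose μ hμ1 hμ2 using fun n : ℕ => Pool.Agent.U204.PN.exists_coin (1 / 2 * ((n : ℝ) + 1) ^ (-δ))
    (by have := (hb n).1; positivity) (by have := (hb n).2; linarith)
  have : ∀ n, IsProbabilityMeasure (μ n) := hμ1
  have ha := main μ a s (1 / 2) δ (by norm_num) hδ0 hδ1
    (fun n => ⟨(hμ2 n).ge, by rw [hμ2 n]; have := (hb n).2; linarith⟩)
  have ht := Pool.Agent.U894.PN.t_THIN μ (1 / 2) δ hδ0 (by linarith) (fun n => (hμ2 n).le)
  obtain ⟨ω, hω1, C, hC⟩ := (ha.and ht).exists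
  refine ⟨changed a s ω, |C|, fun n => ?_, fun N => ?_, hω1⟩
  · by_cases h : ω n = true
    · exact Or.inr (by simp [changed, h])
    · exact Or.inl (by simp [changed, h])
  · rcases Nat.eq_zero_or_pos N with rfl | hN
    · simp
      positivity
    · have hN1 : (1 : ℝ) ≤ N := by exact_mod_cast hN
      calc (((range N).filter fun n => changed a s ω n ≠ a n).card : ℝ)
          ≤ (((range N).filter fun n => ω n = true).card : ℝ) := by
            exact_mod_cast Finset.card_le_card (Finset.monotone_filter_right _ fun n _ hn => by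
              by_contra h
              exact hn (by simp [changed, h]))
        _ ≤ C * (N : ℝ) ^ (1 - δ) := hC N
        _ ≤ |C| * (N : ℝ) ^ (1 - δ) := mul_le_mul_of_nonneg_right (le_abs_self C) (by positivity)
        _ ≤ |C| * (N : ℝ) ^ θ := mul_le_mul_of_nonneg_left
            (Real.rpow_le_rpow_of_exponent_le hN1 hδθ) (abs_nonneg C)

end Pool.Agent.Results.MP_a3366f_nt.RandomExponents
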